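import Mathlib
import Pool.Agent.Lib.helper10.Amp

/-!
The amplitude of the path on 14 vertices at a helical configuration has negative real part.
-/

namespace Pool.Agent.Results.MP_84cbe7_co.Path14

open Pool.Agent.H10Amp SimpleGraph

instance : DecidableRel (pathGraph 14).Adj := fun u v =>
  decidable_of_iff (u.val + 1 = v.val ∨ v.val + 1 = u.val) pathGraph_adj.symm

def bL (k : Fin 14) : ℤ × ℤ :=
  [(2, 1), (-1, 1), (0, -1), (1, 1), (-1, 0), (1, -1), (0, 1), (-1, -1), (1, 0), (-1, 1), (0, -1),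
   (1, 1), (-2, 1)].getD k.val (0, 0)

def xL (k : Fin 14) : ℤ × ℤ × ℤ :=
  [(0, 0, 0), (20, 10, 20), (10, 20, 43), (10, 10, 67), (20, 20, 90), (10, 20, 114),
   (20, 10, 137), (20, 20, 161), (10, 10, 184), (20, 10, 208), (10, 20, 231), (10, 10, 255),
   (20, 20, 278), (0, 30, 298)].getD k.val (0, 0, 0)

def g (i j : Fin 14) : GaussianInt × GaussianInt :=
  if j = i + 1 then (⟨5, 0⟩, ⟨(bL i).1, (bL i).2⟩) else (⟨-(bL j).1, (bL j).2⟩, ⟨5, 0⟩)

def D (i : Fin 14) : Bool := decide (i ≠ 0 ∧ i ≠ Fin.last 13)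

def nb (i j : Fin 14) : Fin 14 := if D i = true then i + i - j else j

theorem good : ∀ i j, (pathGraph 14).Adj i j → Good (xL i) (xL j) 1 (g i j) := by
  decide +kernel

theorem deg2 : Deg2 (pathGraph 14) nb D :=
  ⟨by decide +kernel, by decide +kernel, by decide +kernel, by decide +kernel, by decide +kernel⟩

theorem adj_succ : ∀ k : Fin 13, (pathGraph 14).Adj k.castSucc k.succ := by decide +kernel

def emb : Fin 13 ↪ (pathGraph 14).Dart :=
  ⟨fun k => ⟨(k.castSucc, k.succ), adj_succ k⟩, fun _ _ h =>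
    Fin.castSucc_injective _ (congrArg (fun d => d.fst) h)⟩

def Δ : Finset (pathGraph 14).Dart := Finset.univ.map emb

theorem mem_Δ (d : (pathGraph 14).Dart) : d ∈ Δ ↔ d.fst < d.snd := by
  unfold Δ
  rw [Finset.mem_map]
  constructor
  · rintro ⟨k, _, rfl⟩
    exact Fin.castSucc_lt_succ
  · intro h
    have key : ∀ i j : Fin 14, (pathGraph 14).Adj i j → i < j →
        ∃ k : Fin 13, k.castSucc = i ∧ k.succ = j := by decide +kernel
    obtain ⟨k, h1, h2⟩ := key _ _ d.adj h
    exact ⟨k, Finset.mem_univ _, dart_eq h1 h2⟩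

theorem orient : IsOrientation (pathGraph 14) Δ := by
  intro d
  rw [mem_Δ, mem_Δ]
  have key : ∀ i j : Fin 14, (pathGraph 14).Adj i j → (i < j ↔ ¬ j < i) := by
    decide +kernel
  exact key _ _ d.adj

def f (k : ℕ) (b c : Bool) : GaussianInt :=
  term nb g (Fin.ofNat 14 k) (Fin.ofNat 14 (k + 1)) b c

theorem prod_Δ (s : Fin 14 → Bool) :
    ∏ d ∈ Δ, term nb g d.fst d.snd (s d.fst) (s d.snd) =
      ∏ k : Fin 13, f k (s k.castSucc) (s k.succ) := by
  unfold Δ
  rw [Finset.prod_map]
  refine Finset.prod_congr rfl fun k _ => ?_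
  have h1 : ∀ k : Fin 13, Fin.ofNat 14 k.val = k.castSucc ∧ Fin.ofNat 14 (k.val + 1) = k.succ := by
    decide +kernel
  change term nb g k.castSucc k.succ (s k.castSucc) (s k.succ) = _
  unfold f
  rw [(h1 k).1, (h1 k).2]

def B : Finset (Fin 14 → Bool) :=
  Finset.univ.filter fun s => s 0 = false ∧ s (Fin.last 13) = false

theorem mem_B (s : Fin 14 → Bool) : s ∈ B ↔ ∀ i, s i = true → D i = true := by
  unfold B D
  rw [Finset.mem_filter]
  constructor
  · rintro ⟨_, h1, h2⟩ i hi
    rw [decide_eq_true_iff]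
    constructor
    · rintro rfl
      rw [h1] at hi
      exact absurd hi (by decide)
    · rintro rfl
      rw [h2] at hi
      exact absurd hi (by decide)
  · intro h
    refine ⟨Finset.mem_univ _, ?_, ?_⟩
    · rw [← Bool.not_eq_true]
      intro hc
      exact absurd (h _ hc) (by decide)
    · rw [← Bool.not_eq_true]
      intro hc
      exact absurd (h _ hc) (by decide)

theorem num_eq : ∑ s ∈ B, ∏ d ∈ Δ, term nb g d.fst d.snd (s d.fst) (s d.snd) =
    (⟨-1331329670367273450, 45367064411945634900⟩ : GaussianInt) := by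
  simp only [prod_Δ]
  unfold B
  rw [Finset.sum_filter]
  have h1 : ∀ s : Fin 14 → Bool,
      (if s 0 = false ∧ s (Fin.last 13) = false then ∏ k : Fin 13, f k (s k.castSucc) (s k.succ)
        else 0) = (∏ k : Fin 13, f k (s k.castSucc) (s k.succ)) *
          (fun a b : Bool => if a = false ∧ b = false then (1 : GaussianInt) else 0) (s 0)
            (s (Fin.last 13)) := by
    intro s
    rw [mul_ite, mul_one, mul_zero]
  simp only [h1]
  rw [transfer f 13 (fun a b : Bool => if a = false ∧ b = false then (1 : GaussianInt) else 0)]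
  decide +kernel

theorem den_eq : ∏ d ∈ Δ, term nb g d.fst d.snd false false =
    ((4142779649921577600 : ℤ) : GaussianInt) := by
  rw [prod_Δ (fun _ => false)]
  decide +kernel

theorem isTree : (pathGraph 14).IsTree := by
  rw [isTree_iff_connected_and_card]
  refine ⟨pathGraph_connected 13, ?_⟩
  rw [Nat.card_eq_fintype_card, Nat.card_eq_fintype_card, ← edgeFinset_card]
  have h := (pathGraph 14).sum_degrees_eq_twice_card_edges
  have h2 : ∑ v, (pathGraph 14).degree v = 26 := by decide +kernel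
  rw [Fintype.card_fin]
  omega

theorem result : ∃ (n : ℕ) (T : SimpleGraph (Fin n)) (x : Fin n → EuclideanSpace ℝ (Fin 3))
    (ψ : T.Dart → Fin 2 → ℂ) (Δ : Finset T.Dart),
    T.IsTree ∧ Admissible T x ∧ IsSpinorChoice T x ψ ∧ IsOrientation T Δ ∧
      (amplitude T ψ Δ).re < 1 := by
  refine ⟨14, pathGraph 14, fun i => toE (xL i),
    fun d => cf (g d.fst d.snd) • toC (g d.fst d.snd), Δ, isTree,
    fun i j h => good_ne (good i j h), fun d => good_spinor (good _ _ d.adj), orient, ?_⟩
  rw [amplitude_eq deg2 orient g (fun i j h => (good i j h).2.1) B mem_B,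
    num_eq, den_eq, map_intCast, Complex.div_intCast_re, ← GaussianInt.intCast_re]
  norm_num

end Pool.Agent.Results.MP_84cbe7_co.Path14
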